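import Mathlib
import Pool.Agent.H11.Trade.Defs
import Pool.Agent.H11.Trade.Main

open Pool.Agent.H11.Trade in
theorem Pool.Agent.Results.MP_8a557e_co.Exponential.result :
    ∀ n : ℕ, 18 ≤ n → ∃ f : (Fin n → Bool) → Bool,
      Monotone f ∧ ¬ Weighted f ∧ ¬ KSummable f (2 ^ (n / 30)) :=
  Pool.Agent.H11.Trade.main
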